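import Pool.Agent.Helper32_NJ.Stmts

/-!
# Module FIB of squad NJ: the fibres
-/

set_option autoImplicit false

namespace Pool.Agent.NJ.H33

open Polynomial

/-- common denominator of four rational functions -/
theorem comDen (f₁ f₂ f₃ f₄ : RatFunc ℚ) : ∃ (d p₁ p₂ p₃ p₄ : ℚ[X]), d ≠ 0 ∧
    f₁ * algebraMap ℚ[X] (RatFunc ℚ) d = algebraMap ℚ[X] (RatFunc ℚ) p₁ ∧
    f₂ * algebraMap ℚ[X] (RatFunc ℚ) d = algebraMap ℚ[X] (RatFunc ℚ) p₂ ∧
    f₃ * algebraMap ℚ[X] (RatFunc ℚ) d = algebraMap ℚ[X] (RatFunc ℚ) p₃ ∧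
    f₄ * algebraMap ℚ[X] (RatFunc ℚ) d = algebraMap ℚ[X] (RatFunc ℚ) p₄ := by
  have key : ∀ f : RatFunc ℚ, f * algebraMap ℚ[X] (RatFunc ℚ) f.denom =
      algebraMap ℚ[X] (RatFunc ℚ) f.num := by
    intro f
    have h := RatFunc.num_div_denom f
    have hd : algebraMap ℚ[X] (RatFunc ℚ) f.denom ≠ 0 := by
      intro h0
      exact f.denom_ne_zero ((map_eq_zero_iff _ (RatFunc.algebraMap_injective ℚ)).mp h0)
    rw [div_eq_iff hd] at h
    exact h.symm
  refine ⟨f₁.denom * f₂.denom * f₃.denom * f₄.denom, f₁.num * f₂.denom * f₃.denom * f₄.denom,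
    f₂.num * f₁.denom * f₃.denom * f₄.denom, f₃.num * f₁.denom * f₂.denom * f₄.denom,
    f₄.num * f₁.denom * f₂.denom * f₃.denom, ?_, ?_, ?_, ?_, ?_⟩
  · exact mul_ne_zero (mul_ne_zero (mul_ne_zero f₁.denom_ne_zero f₂.denom_ne_zero)
      f₃.denom_ne_zero) f₄.denom_ne_zero
  · simp only [map_mul, ← key f₁]; ring
  · simp only [map_mul, ← key f₂]; ring
  · simp only [map_mul, ← key f₃]; ring
  · simp only [map_mul, ← key f₄]; ring

theorem fib : FIBStmt := by
  intro E e₁ e₂ e₃ u δ x y z hΔ hR hD hinf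
  obtain ⟨d, p₁, p₂, p₃, n, hd, h1, h2, h3, h4⟩ := comDen e₁ e₂ e₃ u
  have inj : Function.Injective (algebraMap ℚ[X] (RatFunc ℚ)) := RatFunc.algebraMap_injective ℚ
  have hn : n ≠ 0 := by
    intro h0
    rw [h0, map_zero] at h4
    rcases mul_eq_zero.mp h4 with h | h
    · exact hD.u0 h
    · exact hd ((map_eq_zero_iff _ inj).mp h)
  obtain ⟨r2, r4, r6⟩ := hR
  have q2 : E.b₂ * d = -4 * (p₁ + p₂ + p₃) := by
    apply inj
    simp only [gen, WeierstrassCurve.map_b₂] at r2
    simp only [map_mul, map_add, map_neg, map_ofNat, ← h1, ← h2, ← h3, r2]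
    ring
  have q4 : E.b₄ * d ^ 2 = 2 * (p₁ * p₂ + p₁ * p₃ + p₂ * p₃) := by
    apply inj
    simp only [gen, WeierstrassCurve.map_b₄] at r4
    simp only [map_mul, map_add, map_pow, map_ofNat, ← h1, ← h2, ← h3, r4]
    ring
  have q6 : E.b₆ * d ^ 3 = -4 * (p₁ * p₂ * p₃) := by
    apply inj
    simp only [gen, WeierstrassCurve.map_b₆] at r6
    simp only [map_mul, map_neg, map_pow, map_ofNat, ← h1, ← h2, ← h3, r6]
    ring
  have s12 : (p₁ - p₂) * d = n ^ 2 * (δ * x) := by
    apply inj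
    rw [map_mul, map_sub, map_mul, map_pow, ← h1, ← h2, ← h4]
    have := hD.h12
    linear_combination (algebraMap ℚ[X] (RatFunc ℚ) d) ^ 2 * this
  have s31 : (p₃ - p₁) * d = n ^ 2 * (δ * z) := by
    apply inj
    rw [map_mul, map_sub, map_mul, map_pow, ← h1, ← h3, ← h4]
    have := hD.h31
    linear_combination (algebraMap ℚ[X] (RatFunc ℚ) d) ^ 2 * this
  have hP : d * n * E.Δ ≠ 0 := mul_ne_zero (mul_ne_zero hd hn) hΔ
  have hroots : {t : ℚ | (d * n * E.Δ).eval t = 0}.Finite := by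
    refine ((d * n * E.Δ).roots.toFinset.finite_toSet).subset ?_
    intro t ht
    simp only [Set.mem_ofPred_eq] at ht
    rw [Finset.mem_coe, Multiset.mem_toFinset, mem_roots hP]
    exact ht
  refine (hinf.sdiff hroots).mono ?_
  rintro t ⟨ht, ht2⟩
  simp only [Set.mem_ofPred_eq, eval_mul, mul_eq_zero, not_or] at ht ht2 ⊢
  obtain ⟨⟨hdt, hnt⟩, hΔt⟩ := ht2
  have e2 := congrArg (fun p => Polynomial.eval t p) q2
  have e4 := congrArg (fun p => Polynomial.eval t p) q4
  have e6 := congrArg (fun p => Polynomial.eval t p) q6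
  have e12 := congrArg (fun p => Polynomial.eval t p) s12
  have e31 := congrArg (fun p => Polynomial.eval t p) s31
  simp only [eval_mul, eval_add, eval_sub, eval_neg, eval_pow, eval_ofNat] at e2 e4 e6 e12 e31
  refine ⟨?_, ?_⟩
  · simp only [Pool.Agent.NJ.fib, WeierstrassCurve.map_Δ, coe_evalRingHom]
    exact hΔt
  · intro X Y hXY
    rw [WeierstrassCurve.Affine.equation_iff] at hXY
    simp only [Pool.Agent.NJ.fib, WeierstrassCurve.map_a₁, WeierstrassCurve.map_a₂,
      WeierstrassCurve.map_a₃, WeierstrassCurve.map_a₄, WeierstrassCurve.map_a₆,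
      coe_evalRingHom] at hXY ⊢
    have b2 : eval t E.b₂ = eval t E.a₁ ^ 2 + 4 * eval t E.a₂ := by
      simp [WeierstrassCurve.b₂]
    have b4 : eval t E.b₄ = 2 * eval t E.a₄ + eval t E.a₁ * eval t E.a₃ := by
      simp [WeierstrassCurve.b₄]
    have b6 : eval t E.b₆ = eval t E.a₃ ^ 2 + 4 * eval t E.a₆ := by
      simp [WeierstrassCurve.b₆]
    rw [b2] at e2
    rw [b4] at e4
    rw [b6] at e6
    generalize eval t E.a₁ = a₁ at *
    generalize eval t E.a₂ = a₂ at *
    generalize eval t E.a₃ = a₃ at *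
    generalize eval t E.a₄ = a₄ at *
    generalize eval t E.a₆ = a₆ at *
    generalize eval t d = D at *
    generalize eval t n = N at *
    generalize eval t p₁ = P₁ at *
    generalize eval t p₂ = P₂ at *
    generalize eval t p₃ = P₃ at *
    generalize eval t δ = dd at *
    generalize eval t x = xx at *
    generalize eval t z = zz at *
    have hsq : (2 * Y + a₁ * X + a₃) ^ 2 * D ^ 3 =
        4 * (D * X - P₁) * (D * X - P₂) * (D * X - P₃) := by
      linear_combination (4 * D ^ 3) * hXY + (X ^ 2 * D ^ 2) * e2 + (2 * X * D) * e4 + e6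
    have hT := ht ((D * X - P₁) * D / N ^ 2)
      ((2 * Y + a₁ * X + a₃) * D ^ 3 / (2 * N ^ 3)) ?_
    · have hN3 : (2 * N ^ 3) ≠ 0 := mul_ne_zero two_ne_zero (pow_ne_zero 3 hnt)
      rcases div_eq_zero_iff.mp hT with h | h
      · rcases mul_eq_zero.mp h with h | h
        · exact h
        · exact absurd h (pow_ne_zero 3 hdt)
      · exact absurd h hN3
    · have f12 : dd * xx = (P₁ - P₂) * D / N ^ 2 := by
        rw [e12]
        field_simp
      have f31 : dd * zz = (P₃ - P₁) * D / N ^ 2 := by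
        rw [e31]
        field_simp
      rw [f12, f31]
      have : ((2 * Y + a₁ * X + a₃) * D ^ 3 / (2 * N ^ 3)) ^ 2 =
          (2 * Y + a₁ * X + a₃) ^ 2 * D ^ 3 * D ^ 3 / (4 * N ^ 6) := by
        field_simp
        ring
      rw [this, hsq]
      field_simp
      ring

end Pool.Agent.NJ.H33
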