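import Pool.Agent.Helper32_NJ.Stmts

/-!
# Module PAR of squad NJ: infinitely many parameters
-/

set_option autoImplicit false

namespace Pool.Agent.NJ.H33

open Polynomial

/-- scaling by a square -/
theorem triv_sq (a b c a' b' : ℚ) (hc : c ≠ 0) (h : Triv a b) (ha : a' = c ^ 2 * a)
    (hb : b' = c ^ 2 * b) : Triv a' b' := by
  intro X Y hXY
  have h1 : Y / c ^ 3 = 0 := by
    refine h (X / c ^ 2) (Y / c ^ 3) ?_
    subst ha hb
    have e : (Y / c ^ 3) ^ 2 = Y ^ 2 / c ^ 6 := by
      field_simp
    rw [e, hXY]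
    field_simp
  have h2 : c ^ 3 ≠ 0 := pow_ne_zero _ hc
  rcases div_eq_zero_iff.mp h1 with h | h
  · exact h
  · exact absurd h h2

/-- cyclic change of the origin -/
theorem triv_cyc (a b a' b' : ℚ) (h : Triv a b) (ha : a' = b - a) (hb : b' = -a) :
    Triv a' b' := by
  intro X Y hXY
  refine h (X + a) Y ?_
  subst ha hb
  rw [hXY]
  ring

/-- a Moebius map attains infinitely many values of an infinite set -/
theorem mob (x z s : ℚ[X]) (hx : x.natDegree ≤ 1) (hz : z.natDegree ≤ 1) (hc : IsCoprime x z)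
    (hn : ¬ (x.natDegree = 0 ∧ z.natDegree = 0)) (hs : s ≠ 0) (S : Set ℚ) (hS : S.Infinite) :
    {t : ℚ | z.eval t ≠ 0 ∧ s.eval t ≠ 0 ∧ x.eval t / z.eval t ∈ S}.Infinite := by
  intro hfin
  refine hS ?_
  have hroots : {t : ℚ | s.eval t = 0}.Finite := by
    refine (s.roots.toFinset.finite_toSet).subset ?_
    intro t ht
    simp only [Set.mem_ofPred_eq] at ht
    simp [hs, ht, IsRoot.def]
  have hf2 : ((fun t : ℚ => x.eval t / z.eval t) ''
      ({t : ℚ | z.eval t ≠ 0 ∧ s.eval t ≠ 0 ∧ x.eval t / z.eval t ∈ S} ∪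
        {t : ℚ | s.eval t = 0})).Finite := (hfin.union hroots).image _
  refine (hf2.union (Set.finite_singleton (x.coeff 1 / z.coeff 1))).subset ?_
  intro r hr
  have ex : ∀ t : ℚ, x.eval t = x.coeff 1 * t + x.coeff 0 := by
    intro t
    conv_lhs => rw [Polynomial.eq_X_add_C_of_natDegree_le_one hx]
    simp
  have ez : ∀ t : ℚ, z.eval t = z.coeff 1 * t + z.coeff 0 := by
    intro t
    conv_lhs => rw [Polynomial.eq_X_add_C_of_natDegree_le_one hz]
    simp
  by_cases h1 : x.coeff 1 = r * z.coeff 1
  · right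
    by_cases hz1 : z.coeff 1 = 0
    · exfalso
      apply hn
      have hx1 : x.coeff 1 = 0 := by rw [h1, hz1, mul_zero]
      constructor
      · rw [Polynomial.eq_X_add_C_of_natDegree_le_one hx, hx1]
        simp
      · rw [Polynomial.eq_X_add_C_of_natDegree_le_one hz, hz1]
        simp
    · simp only [Set.mem_singleton_iff]
      rw [h1]
      field_simp
  · left
    have hd : x.coeff 1 - r * z.coeff 1 ≠ 0 := sub_ne_zero.mpr h1
    set t : ℚ := -(x.coeff 0 - r * z.coeff 0) / (x.coeff 1 - r * z.coeff 1) with ht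
    have hxt : x.eval t = r * z.eval t := by
      rw [ex, ez, ht]
      field_simp
      ring
    have hzt : z.eval t ≠ 0 := by
      intro h0
      obtain ⟨a, b, hab⟩ := hc
      have := congrArg (fun p => Polynomial.eval t p) hab
      simp only [eval_add, eval_mul, eval_one, hxt, h0] at this
      norm_num at this
    have hq : x.eval t / z.eval t = r := by
      rw [hxt]
      field_simp
    refine ⟨t, ?_, hq⟩
    by_cases hst : s.eval t = 0
    · right
      exact hst
    · left
      refine ⟨hzt, hst, ?_⟩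
      rw [hq]
      exact hr

theorem par (hARR : ARRStmt) (hARK : ARKStmt) : PARStmt := by
  intro δ x y z k s hsum hcop hx0 hy0 hz0 hn hx hy hz hk hs hδ
  have ey : y = -x - z := by linear_combination hsum
  have ez : z = -x - y := by linear_combination hsum
  have ex : x = -y - z := by linear_combination hsum
  have hxz : IsCoprime x z := by
    obtain ⟨a, b, hab⟩ := hcop
    refine ⟨a - b, -b, ?_⟩
    rw [ez]
    linear_combination hab
  have hyx : IsCoprime y x := hcop.symm
  have hzy : IsCoprime z y := by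
    obtain ⟨a, b, hab⟩ := hcop
    refine ⟨-a, b - a, ?_⟩
    rw [ez]
    linear_combination hab
  have dsum : ∀ t : ℚ, x.eval t + y.eval t + z.eval t = 0 := by
    intro t
    have := congrArg (fun p => Polynomial.eval t p) hsum
    simpa using this
  have nd : ∀ p q : ℚ[X], p.natDegree = 0 → q.natDegree = 0 → (-p - q).natDegree = 0 := by
    intro p q hp hq
    have := Polynomial.natDegree_sub_le (-p) q
    rw [natDegree_neg, hp, hq] at this
    simpa using this
  rcases hδ with h | h | h | h
  · -- δ = k s² x : r = y / x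
    have hn' : ¬ (y.natDegree = 0 ∧ x.natDegree = 0) := fun h => hn ⟨h.2, h.1⟩
    refine (mob y x s hy hx hyx hn' hs _ (hARR k hk)).mono ?_
    rintro t ⟨h1, h2, h3⟩
    simp only [Set.mem_ofPred_eq] at h3 ⊢
    have A := triv_sq _ _ (s.eval t * x.eval t) (-((δ * y).eval t)) ((δ * x).eval t)
      (mul_ne_zero h2 h1) h3 (by rw [h]; simp; field_simp) (by rw [h]; simp; ring)
    refine triv_cyc _ _ _ _ (triv_cyc _ _ _ _ A rfl rfl) ?_ ?_
    · have := dsum t
      simp only [eval_mul]
      linear_combination 0 * this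
    · have := dsum t
      simp only [eval_mul]
      linear_combination (δ.eval t) * this
  · have hn' : ¬ (z.natDegree = 0 ∧ y.natDegree = 0) := fun h => hn ⟨by
      rw [ex]; exact nd y z h.2 h.1, h.2⟩
    refine (mob z y s hz hy hzy hn' hs _ (hARR k hk)).mono ?_
    rintro t ⟨h1, h2, h3⟩
    simp only [Set.mem_ofPred_eq] at h3 ⊢
    have A := triv_sq _ _ (s.eval t * y.eval t) (-((δ * z).eval t)) ((δ * y).eval t)
      (mul_ne_zero h2 h1) h3 (by rw [h]; simp; field_simp) (by rw [h]; simp; ring)
    refine triv_cyc _ _ _ _ A ?_ ?_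
    · have := dsum t
      simp only [eval_mul]
      linear_combination (-δ.eval t) * this
    · simp
  · have hn' : ¬ (x.natDegree = 0 ∧ z.natDegree = 0) := fun h => hn ⟨h.1, by
      rw [ey]; exact nd x z h.1 h.2⟩
    refine (mob x z s hx hz hxz hn' hs _ (hARR k hk)).mono ?_
    rintro t ⟨h1, h2, h3⟩
    simp only [Set.mem_ofPred_eq] at h3 ⊢
    exact triv_sq _ _ (s.eval t * z.eval t) (-((δ * x).eval t)) ((δ * z).eval t)
      (mul_ne_zero h2 h1) h3 (by rw [h]; simp; field_simp) (by rw [h]; simp; ring)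
  · have hn' : ¬ (x.natDegree = 0 ∧ z.natDegree = 0) := fun h => hn ⟨h.1, by
      rw [ey]; exact nd x z h.1 h.2⟩
    refine (mob x z s hx hz hxz hn' hs _ (hARK k hk)).mono ?_
    rintro t ⟨h1, h2, h3⟩
    simp only [Set.mem_ofPred_eq] at h3 ⊢
    have hyt : y.eval t = -(x.eval t) - z.eval t := by linear_combination dsum t
    refine triv_sq _ _ (s.eval t * z.eval t ^ 2) (-((δ * x).eval t)) ((δ * z).eval t)
      (mul_ne_zero h2 (pow_ne_zero 2 h1)) h3 ?_ ?_
    · rw [h]
      simp only [eval_mul, eval_C, eval_pow, hyt]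
      field_simp
      ring
    · rw [h]
      simp only [eval_mul, eval_C, eval_pow, hyt]
      field_simp
      ring

end Pool.Agent.NJ.H33
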